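import Pool.Agent.H381R4.BP.Stubs

/-! DOM (helper338): integrability of the dominating function. -/

set_option autoImplicit false
open MeasureTheory Matrix Filter Topology
open scoped ENNReal BigOperators Pointwise

namespace Pool.Agent.H338BP
open Pool.Agent.H381CM Pool.Agent.H381BP

theorem integrable_radial (d m : ℕ) (hm : m < d) (c : ℝ) (hc : 0 < c) :
    Integrable (fun y : EuclideanSpace ℝ (Fin d) => Real.exp (-c * ‖y‖ ^ 2) / ‖y‖ ^ m) := by
  have : Nonempty (Fin d) := ⟨⟨0, by omega⟩⟩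
  have : Nontrivial (EuclideanSpace ℝ (Fin d)) := inferInstance
  have h := (integrable_fun_norm_addHaar (μ := (volume : Measure (EuclideanSpace ℝ (Fin d))))
    (f := fun y : ℝ => Real.exp (-c * y ^ 2) / y ^ m)).2
  refine h ?_
  rw [finrank_euclideanSpace, Fintype.card_fin]
  have h2 := integrableOn_rpow_mul_exp_neg_mul_sq hc (s := ((d - 1 - m : ℕ) : ℝ)) (by
    have : (0 : ℝ) ≤ ((d - 1 - m : ℕ) : ℝ) := Nat.cast_nonneg _
    linarith)
  refine h2.congr_fun ?_ measurableSet_Ioi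
  intro y hy
  have hy0 : (0 : ℝ) < y := hy
  show y ^ ((d - 1 - m : ℕ) : ℝ) * Real.exp (-c * y ^ 2) =
    y ^ (d - 1) • (Real.exp (-c * y ^ 2) / y ^ m)
  rw [Real.rpow_natCast, smul_eq_mul]
  have e : y ^ (d - 1) = y ^ (d - 1 - m) * y ^ m := by
    rw [← pow_add]
    congr 1
    omega
  rw [e]
  field_simp

theorem T_DOM : S_DOM := by
  intro d m hm c hc
  have hmeas : Measurable (fun x : V d => ENNReal.ofReal (Real.exp (-c * ∑ i, x i ^ 2) /
      (Real.sqrt (∑ i, x i ^ 2)) ^ m)) := by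
    apply Measurable.ennreal_ofReal
    fun_prop
  have h1 := (PiLp.volume_preserving_ofLp (Fin d)).lintegral_comp hmeas
  have h2 : ∫⁻ x : V d, ENNReal.ofReal (Real.exp (-c * ∑ i, x i ^ 2) /
      (Real.sqrt (∑ i, x i ^ 2)) ^ m) = ∫⁻ y : EuclideanSpace ℝ (Fin d),
        ENNReal.ofReal (Real.exp (-c * ‖y‖ ^ 2) / ‖y‖ ^ m) := by
    refine Eq.trans h1.symm ?_
    refine lintegral_congr fun y => ?_
    have e : ∑ i, (WithLp.ofLp y : Fin d → ℝ) i ^ 2 = ‖y‖ ^ 2 := by
      rw [EuclideanSpace.real_norm_sq_eq]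
    rw [e, Real.sqrt_sq (norm_nonneg _)]
  rw [h2]
  exact (integrable_radial d m hm c hc).lintegral_lt_top

end Pool.Agent.H338BP
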